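import Pool.Agent.helper62.EN.SpecP
import Pool.Agent.helper62.RS.ETD
import Pool.Agent.helper62.RS.GLC
import Pool.Agent.helper58.RS.GFD
import Pool.Agent.helper92.RS.GMG
import Pool.Agent.helper83.RS.GLI
import Pool.Agent.helper9.RS.GRI
import Pool.Agent.helper97.RS.GBD
import Pool.Agent.helper88.RS.FL0

/-!
# MP_07c750, row ksy:LVF: functions on `M`
-/

set_option autoImplicit false

open scoped MatrixGroups ContDiff Topology UpperHalfPlane ComplexConjugate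
open UpperHalfPlane MeasureTheory Filter Set

namespace Pool.Agent.EN

open Pool.Agent.RS

theorem LVF_GFD : GFD_stmt := GFD GLC (GMG GLC) (GLI GLC (GMG GLC)) (GRI GLC (GMG GLC) (GLI GLC (GMG GLC)))

theorem LVF_norm {F : Set ℍ} {ψ : ℍ → ℂ} (h : ∫ z in F, ψ z * conj (ψ z) = 1) : nn F ψ = 1 := by
  have h2 : (∫ z in F, ψ z * conj (ψ z)) = ((nn F ψ : ℝ) : ℂ) := by
    unfold nn
    rw [← integral_complex_ofReal]
    refine integral_congr_ae (Eventually.of_forall fun z => ?_)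
    simp only [Complex.mul_conj, Complex.normSq_eq_norm_sq]
  rw [h2] at h
  exact_mod_cast h

theorem LVF_int (Γ : Subgroup SL(2, ℝ)) (F : Set ℍ) (c : ℍ → ℂ) (r : ℝ) (v : SL(2, ℝ) → ℝ) (ψ : ℍ → ℂ)
    (hΓ : QU.SurfaceGroup Γ) (hF : QU.NiceDom Γ F) (hc : TB (1 / 4) c) (hv : Continuous v)
    (hv1 : ∀ g, 0 ≤ v g ∧ v g ≤ 1) (hψ : InvC Γ ψ) :
    Integrable (fun g => v g * ‖Wf (RS.pk r c) ψ g‖ ^ 2) (mG.restrict (dG F)) := by
  obtain ⟨⟨-, -, hfin, -⟩, -⟩ := LVF_GFD Γ F hΓ hF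
  have hfm : IsFiniteMeasure (mG.restrict (dG F)) := ⟨by rw [Measure.restrict_apply_univ]; exact hfin⟩
  have : SecondCountableTopology SL(2, ℝ) := GLC.2.1
  obtain ⟨heS, hecs⟩ := FL0.2.1 (1 / 4) r c hc
  have hec : Continuous (RS.pk r c) := ETD_cont heS
  have hG := FL0.2.2 Γ (RS.pk r c) ψ hec hecs hψ
  obtain ⟨m, hm⟩ := (GBD GLC Γ ℂ _ hΓ hG).1
  refine Integrable.of_bound (hv.mul (hG.1.norm.pow 2)).aestronglyMeasurable (m ^ 2)
    (Eventually.of_forall fun g => ?_)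
  rw [Real.norm_eq_abs, abs_of_nonneg (mul_nonneg (hv1 g).1 (by positivity))]
  have h1 : ‖Wf (RS.pk r c) ψ g‖ ^ 2 ≤ m ^ 2 := pow_le_pow_left₀ (norm_nonneg _) (hm g) 2
  nlinarith [(hv1 g).1, (hv1 g).2, sq_nonneg ‖Wf (RS.pk r c) ψ g‖]

theorem LVF_proof (h1 : WTP_stmt) (h2 : XFL_stmt) : LVF_stmt := by
  intro Γ F c r κ k₀ δ N s φ hG hδ hδ' hfam hN V η t hV hV01 hη hη' hyp
  obtain ⟨-, -, hms, -, hA, hprob, hint⟩ := h1 Γ F c r κ k₀ δ N s φ hG hδ hδ' hfam hN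
  obtain ⟨hfl, hpr, -, -, -, hmM, -, -, hflX, hprX, -⟩ := h2 Γ
  obtain ⟨hs, heig, hon⟩ := hfam
  have hη0 : 0 < η := lt_of_lt_of_le (by positivity) hη
  have hN' : (0 : ℝ) < N := by exact_mod_cast hN
  have hκ := hG.pκ
  -- eigenfunctions
  have heL : ∀ j, EigL Γ (1 / 4 + s j ^ 2) (φ j) := fun j =>
    ⟨(QU.CA1 ℂ).2.1 _ 2 ∞ (WithTop.coe_le_coe.2 le_top) (heig j).1, (heig j).2.1, (heig j).2.2⟩
  have heLc : ∀ j, EigL Γ (1 / 4 + s j ^ 2) (fun z => conj (φ j z)) := fun j => ETD_conj (heL j)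
  have hsr : ∀ j, |s j - r| ≤ 1 := by
    intro j
    rw [abs_of_nonneg (by linarith [(hs j).1])]
    linarith [(hs j).2]
  have hnn : ∀ j, nn F (φ j) = 1 := by
    intro j
    have h3 := hon j j
    rw [if_pos rfl] at h3
    exact LVF_norm h3
  have hnnc : ∀ j, nn F (fun z => conj (φ j z)) = 1 := by
    intro j
    rw [← hnn j]
    unfold nn
    simp only [RCLike.norm_conj]
  -- the function
  have hflc : Continuous (fl Γ t) := by
    have h3 := hfl.cont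
    exact h3.comp (Continuous.prodMk continuous_const continuous_id)
  have hΨc : Continuous (fun x => V (pr Γ (fl Γ t x))) := hV.comp (hpr.comp hflc)
  have haM : Continuous aM := GLC.2.2.2.1
  have hvc : Continuous (fun g : SL(2, ℝ) => V (mkM Γ ((g * aM t) • I))) :=
    hV.comp (hmM.comp ((continuous_id.mul continuous_const).smul continuous_const))
  have e1 := hint (fun x => V (pr Γ (fl Γ t x))) hΨc.measurable
    ⟨1, fun x => by rw [abs_of_nonneg (hV01 _).1]; exact (hV01 _).2⟩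
  have e2 : ∀ g, V (pr Γ (fl Γ t (mkX Γ g))) = V (mkM Γ ((g * aM t) • I)) := by
    intro g
    rw [hflX, hprX]
  simp only [e2] at e1
  -- the integrals
  have i1 : ∀ j, Integrable (fun g => V (mkM Γ ((g * aM t) • I)) * ‖Wf (RS.pk r c) (φ j) g‖ ^ 2)
      (mG.restrict (dG F)) := fun j =>
    LVF_int Γ F c r _ _ hG.surf hG.nice hG.tb hvc (fun g => hV01 _) (ETD_inv (heL j))
  have i2 : ∀ j, Integrable (fun g => V (mkM Γ ((g * aM t) • I)) *
      ‖Wf (RS.pk r c) (fun z => conj (φ j z)) g‖ ^ 2) (mG.restrict (dG F)) := fun j =>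
    LVF_int Γ F c r _ _ hG.surf hG.nice hG.tb hvc (fun g => hV01 _) (ETD_inv (heLc j))
  have e3 : iR F (fun g => V (mkM Γ ((g * aM t) • I)) * wt F c r κ φ g) =
      (∑ j, qn F c r (φ j) / κ *
        (iR F (fun g => V (mkM Γ ((g * aM t) • I)) * ‖Wf (RS.pk r c) (fun z => conj (φ j z)) g‖ ^ 2) +
         iR F (fun g => V (mkM Γ ((g * aM t) • I)) * ‖Wf (RS.pk r c) (φ j) g‖ ^ 2))) / (2 * N * κ) := by
    have h3 : (fun g => V (mkM Γ ((g * aM t) • I)) * wt F c r κ φ g) =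
        fun g => (∑ j, qn F c r (φ j) / κ *
          (V (mkM Γ ((g * aM t) • I)) * ‖Wf (RS.pk r c) (fun z => conj (φ j z)) g‖ ^ 2 +
            V (mkM Γ ((g * aM t) • I)) * ‖Wf (RS.pk r c) (φ j) g‖ ^ 2)) * (2 * N * κ)⁻¹ := by
      funext g
      unfold wt
      rw [div_eq_mul_inv, ← mul_assoc, Finset.mul_sum]
      congr 1
      refine Finset.sum_congr rfl fun j _ => ?_
      ring
    unfold iR
    rw [h3, integral_mul_const, integral_finsetSum, ← div_eq_mul_inv]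
    · congr 1
      refine Finset.sum_congr rfl fun j _ => ?_
      rw [integral_const_mul, integral_add (i2 j) (i1 j)]
    · intro j _
      exact ((i2 j).add (i1 j)).const_mul _
  -- the bound of the terms
  have hm0 : ∀ j, 0 ≤ ∫ z in F, V (mkM Γ z) * ‖φ j z‖ ^ 2 := fun j =>
    integral_nonneg (fun z => mul_nonneg (hV01 _).1 (by positivity))
  have e4 : ∀ j, qn F c r (φ j) / κ *
        (iR F (fun g => V (mkM Γ ((g * aM t) • I)) * ‖Wf (RS.pk r c) (fun z => conj (φ j z)) g‖ ^ 2) +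
         iR F (fun g => V (mkM Γ ((g * aM t) • I)) * ‖Wf (RS.pk r c) (φ j) g‖ ^ 2)) ≤
      2 * κ * ((∫ z in F, V (mkM Γ z) * ‖φ j z‖ ^ 2) + η) := by
    intro j
    have h3 := hyp (s j) (φ j) (hsr j) (heL j)
    have h4 := hyp (s j) _ (hsr j) (heLc j)
    rw [hnn j, mul_one] at h3
    rw [hnnc j, mul_one] at h4
    simp only [RCLike.norm_conj] at h4
    have h5 : 0 ≤ κ * ((∫ z in F, V (mkM Γ z) * ‖φ j z‖ ^ 2) + η) :=
      mul_nonneg hκ.le (add_nonneg (hm0 j) hη0.le)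
    have h6 := mul_le_mul_of_nonneg_left (add_le_add h4 h3) (hA j).2
    have h7 := mul_le_mul_of_nonneg_right (hA j).1 (add_nonneg h5 h5)
    linarith
  have e5 : iR F (fun g => V (mkM Γ ((g * aM t) • I)) * wt F c r κ φ g) ≤
      (∑ j, ∫ z in F, V (mkM Γ z) * ‖φ j z‖ ^ 2) / N + η := by
    rw [e3, div_le_iff₀ (by positivity)]
    have h3 := Finset.sum_le_sum (fun j (_ : j ∈ Finset.univ) => e4 j)
    rw [← Finset.mul_sum, Finset.sum_add_distrib, Finset.sum_const, Finset.card_univ,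
      Fintype.card_fin, nsmul_eq_mul] at h3
    refine h3.trans (le_of_eq ?_)
    field_simp
  -- the average is at most one
  have hVm : Measurable (fun z : ℍ => V (mkM Γ z)) := (hV.comp hmM).measurable
  have hle1 : ∀ j, ∫ z in F, V (mkM Γ z) * ‖φ j z‖ ^ 2 ≤ 1 := by
    intro j
    have h3 : Integrable (fun z => ‖φ j z‖ ^ 2) ((volume : Measure ℍ).restrict F) := by
      by_contra hcon
      have h4 := hnn j
      unfold nn at h4
      rw [integral_undef hcon] at h4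
      exact zero_ne_one h4
    have h5 : Integrable (fun z => V (mkM Γ z) * ‖φ j z‖ ^ 2) ((volume : Measure ℍ).restrict F) := by
      refine Integrable.mono' h3 (hVm.aestronglyMeasurable.mul h3.aestronglyMeasurable)
        (Eventually.of_forall fun z => ?_)
      rw [Real.norm_eq_abs, abs_of_nonneg (mul_nonneg (hV01 _).1 (by positivity))]
      nlinarith [(hV01 (mkM Γ z)).2, sq_nonneg ‖φ j z‖]
    have h6 : ∫ z in F, V (mkM Γ z) * ‖φ j z‖ ^ 2 ≤ ∫ z in F, ‖φ j z‖ ^ 2 := by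
      refine integral_mono h5 h3 fun z => ?_
      show V (mkM Γ z) * ‖φ j z‖ ^ 2 ≤ ‖φ j z‖ ^ 2
      nlinarith [(hV01 (mkM Γ z)).2, sq_nonneg ‖φ j z‖]
    have h7 := hnn j
    unfold nn at h7
    linarith
  have havg : (∑ j, ∫ z in F, V (mkM Γ z) * ‖φ j z‖ ^ 2) / N ≤ 1 := by
    rw [div_le_one hN']
    have h3 := Finset.sum_le_sum (fun j (_ : j ∈ Finset.univ) => hle1 j)
    rw [Finset.sum_const, Finset.card_univ, Fintype.card_fin, nsmul_eq_mul, mul_one] at h3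
    exact h3
  have hI0 : 0 ≤ ∫ x, V (pr Γ (fl Γ t x)) ∂(rho Γ F c r κ φ) :=
    integral_nonneg fun x => (hV01 _).1
  rw [← e1] at e5
  have h8 : (1 - 2 * η) * ∫ x, V (pr Γ (fl Γ t x)) ∂(rho Γ F c r κ φ) ≤
      (∑ j, ∫ z in F, V (mkM Γ z) * ‖φ j z‖ ^ 2) / N + η := by
    refine le_trans (mul_le_mul_of_nonneg_right ?_ hI0) e5
    linarith
  set a := (∑ j, ∫ z in F, V (mkM Γ z) * ‖φ j z‖ ^ 2) / N with ha
  by_contra hcon
  push Not at hcon
  have h9 : (1 - 2 * η) * (a + 5 * η) ≤ (1 - 2 * η) * ∫ x, V (pr Γ (fl Γ t x)) ∂(rho Γ F c r κ φ) :=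
    mul_le_mul_of_nonneg_left hcon.le (by linarith)
  nlinarith [mul_le_mul_of_nonneg_left havg hη0.le]

end Pool.Agent.EN
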