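import Pool.Agent.helper80.EN.Spec2

set_option autoImplicit false

namespace Pool.Agent.helper80.EN

open Subgroup

universe u

theorem RDI_inj {V : Type u} {d : V → V → ℕ} (hd : TM d) {f : ℤ → V} (hf : Par d f) {m n : ℤ}
    (h : f m = f n) : m = n := by
  have h1 : d (f m) (f n) = 0 := (hd.eq _ _).2 h
  have h2 := hf m n
  rw [h1] at h2
  have h3 : |m - n| = 0 := by
    rw [← h2]; rfl
  have h4 := abs_eq_zero.1 h3
  omega

theorem RDI_rep (hLNA : LNA_stmt.{u}) {G V : Type u} [Group G] [MulAction G V] {d : V → V → ℕ}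
    (hA : Act G d) {f : ℤ → V} (hf : Par d f) (hinv : ∀ (g : G) (n : ℤ), ∃ m, g • f n = f m)
    (g : G) : ∃ ε t : ℤ, (ε = 1 ∨ ε = -1) ∧ ∀ n, g • f n = f (ε * n + t) := by
  have hg : Par d (fun n => g • f n) := by
    intro m n
    show (d (g • f m) (g • f n) : ℤ) = |m - n|
    rw [hA.iso]
    exact hf m n
  exact (hLNA V d hA.tm).2.1 (fun n => g • f n) f hg hf (fun n => hinv g n)

theorem RDI_sub {G V : Type u} [Group G] [MulAction G V] {f : ℤ → V} {g : G} {u : ℤ}
    (h : ∀ n, g • f n = f (n + u)) (n : ℤ) : g⁻¹ • f n = f (n - u) := by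
  rw [inv_smul_eq_iff, h (n - u)]
  congr 1
  ring

theorem RDI_ref {G V : Type u} [Group G] [MulAction G V] {f : ℤ → V} {g : G} {u : ℤ}
    (h : ∀ n, g • f n = f (-n + u)) (n : ℤ) : g⁻¹ • f n = f (-n + u) := by
  rw [inv_smul_eq_iff, h (-n + u)]
  congr 1
  ring

theorem RDI_step {G V : Type u} [Group G] [MulAction G V] {f : ℤ → V} {c r : G} {u w : ℤ}
    (hc : ∀ n, c • f n = f (n + u)) (hr : ∀ n, r • f n = f (-n + w)) (n : ℤ) :
    com c r • f n = f (n + (-2 * u)) := by
  unfold com
  rw [mul_smul, mul_smul, mul_smul, hr, hc, RDI_ref hr, RDI_sub hc]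
  congr 1
  ring

theorem RDI_first {G V : Type u} [Group G] [MulAction G V] {f : ℤ → V} {a r : G} {s t : ℤ}
    (ha : ∀ n, a • f n = f (-n + s)) (hr : ∀ n, r • f n = f (-n + (s - t))) (n : ℤ) :
    com a r • f n = f (n + 2 * t) := by
  unfold com
  rw [mul_smul, mul_smul, mul_smul, hr, ha, RDI_ref hr, RDI_ref ha]
  congr 1
  ring

theorem RDI_all {G V : Type u} [Group G] [MulAction G V] {f : ℤ → V} {a r : G} {s t : ℤ}
    (ht : t ≠ 0) (ha : ∀ n, a • f n = f (-n + s)) (hr : ∀ n, r • f n = f (-n + (s - t))) (k : ℕ) :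
    ∃ u : ℤ, u ≠ 0 ∧ ∀ n, icom a r (k + 1) • f n = f (n + u) := by
  induction k with
  | zero =>
    refine ⟨2 * t, by omega, fun n => ?_⟩
    show com a r • f n = f (n + 2 * t)
    exact RDI_first ha hr n
  | succ k ih =>
    obtain ⟨u, hu, h⟩ := ih
    refine ⟨-2 * u, by omega, fun n => ?_⟩
    show com (icom a r (k + 1)) r • f n = f (n + (-2 * u))
    exact RDI_step h hr n

theorem RDI (hLNA : LNA_stmt.{u}) : RDI_stmt.{u} := by
  intro G V _ _ d hA f hf hinv z hz a ha
  -- the element z acts as a nontrivial translation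
  obtain ⟨εz, t, hεz, hzf⟩ := RDI_rep hLNA hA hf hinv z
  have hz1 : ∃ t : ℤ, t ≠ 0 ∧ ∀ n, z • f n = f (n + t) := by
    rcases hεz with h1 | h1
    · refine ⟨t, ?_, fun n => ?_⟩
      · intro h0
        apply hz
        refine ⟨f 0, ?_⟩
        rw [hzf 0, h0]
        congr 1
        ring
      · rw [hzf n, h1]
        congr 1
        ring
    · exfalso
      rcases Int.even_or_odd' t with ⟨c, hc | hc⟩
      · apply hz
        refine ⟨f c, ?_⟩
        rw [hzf c, h1, hc]
        congr 1
        ring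
      · have e1 : z • f c = f (c + 1) := by
          rw [hzf c, h1, hc]
          congr 1
          ring
        have e2 : z • f (c + 1) = f c := by
          rw [hzf (c + 1), h1, hc]
          congr 1
          ring
        have e3 : d (f c) (f (c + 1)) = 1 := by
          have h2 := hf c (c + 1)
          have h3 : |c - (c + 1)| = 1 := by
            have h4 : c - (c + 1) = -1 := by ring
            rw [h4]; rfl
          rw [h3] at h2
          exact_mod_cast h2
        exact hA.inv z (f c) (f (c + 1)) e3 e1 e2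
  obtain ⟨t, ht, hzt⟩ := hz1
  obtain ⟨εa, s, hεa, haf⟩ := RDI_rep hLNA hA hf hinv a
  rcases hεa with h1 | h1
  · refine ⟨s, fun n => ?_⟩
    rw [haf n, h1]
    congr 1
    ring
  · exfalso
    have ha1 : ∀ n, a • f n = f (-n + s) := by
      intro n
      rw [haf n, h1]
      congr 1
      ring
    have hr : ∀ n, (a * z) • f n = f (-n + (s - t)) := by
      intro n
      rw [mul_smul, hzt, ha1]
      congr 1
      ring
    obtain ⟨k, hk⟩ := ha (a * z)
    cases k with
    | zero =>
      have h2 : a = 1 := hk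
      have e1 := ha1 0
      have e2 := ha1 1
      rw [h2, one_smul] at e1 e2
      have e3 := RDI_inj hA.tm hf e1
      have e4 := RDI_inj hA.tm hf e2
      omega
    | succ k =>
      obtain ⟨u, hu, h⟩ := RDI_all ht ha1 hr k
      have e1 := h 0
      rw [hk, one_smul] at e1
      have e2 := RDI_inj hA.tm hf e1
      omega

end Pool.Agent.helper80.EN
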